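import Pool.Agent.Results.MP_a627f3_an.PariniConjecture

/-!
# Parini's conjecture for all open convex sets, and thin slabs

For every nonempty open convex set `Ω ⊆ ℝ ^ (d + 1)`, `d ≥ 1`, of finite or infinite measure, the
function `r ↦ λ_r(Ω) ^ (1 / r) / π_r` is nonincreasing on `(1, ∞)`; it is strictly decreasing if
`Ω` has finite measure, and it is constant (equal to `1`) for the slab `0 < x₀ < 1`. Hence
`π_p / π_q` is the supremum of `F_{p,q}` over the convex open sets of finite measure, where it is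
not attained, and its maximum over all nonempty open convex sets, attained by the slab; and for
every nonempty open set `A ⊆ ℝ ^ d` the thin sets `(0, ε) × A` form a maximising family as `ε → 0`.
-/

open MeasureTheory Set Metric Filter Topology

namespace Pool.Agent.Results.MP_a627f3_an.AllConvexSets

open Pool.Agent.Results.MP_a627f3_an.PariniConjecture
open Pool.Agent.TH281.PC (lam lamSet Jr ratio_lt lam_unit lam_unit_rpow Jr_pos' lam_nonneg)
open Pool.Agent.TH925.J54 (box box_open box_facts box_lower box_upper lamSet_nonempty lamSet_bdd)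

/-- The slab `0 < x₀ < 1` of `ℝ ^ (d + 1)`. -/
def slab (d : ℕ) : Set (EuclideanSpace ℝ (Fin (d + 1))) := {x | 0 < x 0 ∧ x 0 < 1}

/-- The set `(0, ε) × A` of `ℝ ^ (d + 1)`. -/
def thin {d : ℕ} (A : Set (Fin d → ℝ)) (ε : ℝ) : Set (EuclideanSpace ℝ (Fin (d + 1))) :=
  {x | 0 < x 0 ∧ x 0 < ε ∧ (fun i : Fin d => x i.succ) ∈ A}

section basic

variable {d : ℕ} {p : ℝ} {Ω Ω' : Set (EuclideanSpace ℝ (Fin d))}

theorem lamSet_mono (h : Ω ⊆ Ω') : lamSet p Ω ⊆ lamSet p Ω' := by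
  rintro r ⟨u, h1, h2, h3, h4, h5⟩
  exact ⟨u, h1, h2, h3.trans h, h4, h5⟩

theorem lam_mono (h : Ω ⊆ Ω') (hΩ : IsOpen Ω) (hne : Ω.Nonempty) : lam p Ω' ≤ lam p Ω :=
  csInf_le_csInf (lamSet_bdd p Ω') (lamSet_nonempty p hΩ hne) (lamSet_mono h)

/-- The similarity `x ↦ c x + v`. -/
noncomputable def sim {c : ℝ} (hc : 0 < c) (v : EuclideanSpace ℝ (Fin d)) :
    EuclideanSpace ℝ (Fin d) ≃ₜ EuclideanSpace ℝ (Fin d) :=
  (Homeomorph.smulOfNeZero c hc.ne').trans (Homeomorph.addRight v)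

theorem sim_apply {c : ℝ} (hc : 0 < c) (v x : EuclideanSpace ℝ (Fin d)) :
    sim hc v x = c • x + v := rfl

theorem scale_mem {c : ℝ} (hc : 0 < c) (v : EuclideanSpace ℝ (Fin d)) {r : ℝ}
    (hr : r ∈ lamSet p (sim hc v '' Ω)) : c ^ p * r ∈ lamSet p Ω := by
  obtain ⟨u, h1, h2, h3, h4, rfl⟩ := hr
  have key : ∀ g : EuclideanSpace ℝ (Fin d) → ℝ, ∫ x, g (c • x + v) =
      |(c ^ Module.finrank ℝ (EuclideanSpace ℝ (Fin d)))⁻¹| * ∫ x, g x := by
    intro g
    have h5 := Measure.integral_comp_smul volume (fun x => g (x + v)) c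
    rw [integral_add_right_eq_self, smul_eq_mul] at h5
    exact h5
  refine ⟨u ∘ sim hc v, ?_, h2.comp_homeomorph _, ?_, ?_, ?_⟩
  · change ContDiff ℝ 1 (fun x => u (c • x + v))
    exact h1.comp (by fun_prop)
  · rw [tsupport_comp_eq_preimage]
    intro x hx
    obtain ⟨y, hy, hxy⟩ := h3 hx
    rw [← (sim hc v).injective hxy]
    exact hy
  · intro h
    apply h4
    funext y
    obtain ⟨x, rfl⟩ := (sim hc v).surjective y
    exact congrFun h x
  · have h6 : ∀ x, ‖fderiv ℝ (u ∘ sim hc v) x‖ ^ p = c ^ p * ‖fderiv ℝ u (c • x + v)‖ ^ p := by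
      intro x
      have hd : HasFDerivAt (fun x : EuclideanSpace ℝ (Fin d) => c • x + v)
          (c • ContinuousLinearMap.id ℝ (EuclideanSpace ℝ (Fin d))) x :=
        ((hasFDerivAt_id x).const_smul c).add_const v
      have h7 : HasFDerivAt u (fderiv ℝ u (c • x + v)) (c • x + v) :=
        (h1.differentiable one_ne_zero _).hasFDerivAt
      have h8 : fderiv ℝ (u ∘ sim hc v) x = c • fderiv ℝ u (c • x + v) := by
        have h9 := (h7.comp x hd).fderiv
        change fderiv ℝ (u ∘ fun x => c • x + v) x = _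
        rw [h9]
        ext y
        simp
      rw [h8, norm_smul, Real.norm_of_nonneg hc.le, Real.mul_rpow hc.le (norm_nonneg _)]
    have h7 : ∀ x, |(u ∘ sim hc v) x| ^ p = |u (c • x + v)| ^ p := fun x => rfl
    simp only [h6, h7]
    rw [integral_const_mul, key (fun x => ‖fderiv ℝ u x‖ ^ p), key (fun x => |u x| ^ p)]
    have hK : |(c ^ Module.finrank ℝ (EuclideanSpace ℝ (Fin d)))⁻¹| ≠ 0 := by positivity
    rw [mul_div_assoc, mul_div_mul_left _ _ hK]

theorem lam_le_scale {c : ℝ} (hc : 0 < c) (v : EuclideanSpace ℝ (Fin d)) (hΩ : IsOpen Ω)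
    (hne : Ω.Nonempty) : lam p Ω ≤ c ^ p * lam p (sim hc v '' Ω) := by
  have hcp : 0 < c ^ p := Real.rpow_pos_of_pos hc p
  rw [← div_le_iff₀' hcp]
  refine le_csInf (lamSet_nonempty p ((sim hc v).isOpenMap _ hΩ) (hne.image _)) fun r hr => ?_
  rw [div_le_iff₀' hcp]
  exact csInf_le (lamSet_bdd p Ω) (scale_mem hc v hr)

theorem lam_scale {c : ℝ} (hc : 0 < c) (v : EuclideanSpace ℝ (Fin d)) (hΩ : IsOpen Ω)
    (hne : Ω.Nonempty) : lam p Ω = c ^ p * lam p (sim hc v '' Ω) := by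
  refine le_antisymm (lam_le_scale hc v hΩ hne) ?_
  have hcp : 0 < c ^ p := Real.rpow_pos_of_pos hc p
  have hc' : 0 < c⁻¹ := inv_pos.2 hc
  have h1 := lam_le_scale (p := p) hc' (-(c⁻¹ • v)) ((sim hc v).isOpenMap _ hΩ) (hne.image _)
  have h2 : sim hc' (-(c⁻¹ • v)) '' (sim hc v '' Ω) = Ω := by
    rw [image_image]
    have h3 : ∀ x, sim hc' (-(c⁻¹ • v)) (sim hc v x) = x := by
      intro x
      rw [sim_apply, sim_apply, smul_add, smul_smul, inv_mul_cancel₀ hc.ne', one_smul]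
      abel
    simp only [h3, image_id']
  rw [h2, Real.inv_rpow hc.le] at h1
  calc c ^ p * lam p (sim hc v '' Ω) ≤ c ^ p * ((c ^ p)⁻¹ * lam p Ω) :=
        mul_le_mul_of_nonneg_left h1 hcp.le
    _ = lam p Ω := by rw [← mul_assoc, mul_inv_cancel₀ hcp.ne', one_mul]

/-- Exhaustion by bounded sets. -/
theorem exhaust (hΩ : IsOpen Ω) (hne : Ω.Nonempty) {ε : ℝ} (hε : 0 < ε) :
    ∃ R : ℝ, (Ω ∩ ball 0 R).Nonempty ∧ lam p (Ω ∩ ball 0 R) ≤ lam p Ω + ε := by
  obtain ⟨r, ⟨u, h1, h2, h3, h4, rfl⟩, hr⟩ := exists_lt_of_csInf_lt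
    (lamSet_nonempty p hΩ hne) (show sInf (lamSet p Ω) < lam p Ω + ε by
      change lam p Ω < _
      linarith)
  obtain ⟨R, hR⟩ := (h2.isBounded.subset_ball (0 : EuclideanSpace ℝ (Fin d)))
  obtain ⟨x, hx⟩ := Function.ne_iff.1 h4
  have hx' : x ∈ tsupport u := subset_tsupport u hx
  refine ⟨R, ⟨x, h3 hx', hR hx'⟩, ?_⟩
  have h5 : (∫ x, ‖fderiv ℝ u x‖ ^ p) / (∫ x, |u x| ^ p) ∈ lamSet p (Ω ∩ ball 0 R) :=
    ⟨u, h1, h2, fun y hy => ⟨h3 hy, hR hy⟩, h4, rfl⟩
  exact (csInf_le (lamSet_bdd p _) h5).trans hr.le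

end basic

section pos

variable {d : ℕ}

theorem unit_pos {r : ℝ} (hr : 1 < r) : 0 < lam r (Ioo (0 : ℝ) 1) := by
  rw [lam_unit hr]
  have := Jr_pos' hr
  positivity

/-- The eigenvalues of bounded sets are positive. -/
theorem lam_pos {r : ℝ} (hr : 1 < r) {Ω : Set (EuclideanSpace ℝ (Fin (d + 1)))} (hΩ : IsOpen Ω)
    (hne : Ω.Nonempty) {R : ℝ} (hb : Ω ⊆ ball 0 R) : 0 < lam r Ω := by
  have hR : 0 < R := by
    obtain ⟨x, hx⟩ := hne
    have := hb hx
    rw [mem_ball_zero_iff] at this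
    exact (norm_nonneg x).trans_lt this
  have hc : 0 < (2 * R)⁻¹ := by positivity
  set v : EuclideanSpace ℝ (Fin (d + 1)) := EuclideanSpace.single 0 (1 / 2) with hv
  rw [lam_scale hc v hΩ hne]
  have h1 : sim hc v '' Ω ⊆ box d 1 := by
    rintro _ ⟨x, hx, rfl⟩
    have h2 : ‖x‖ < R := by
      have := hb hx
      rwa [mem_ball_zero_iff] at this
    have h3 : ∀ i, |(2 * R)⁻¹ * x i| < 1 / 2 := by
      intro i
      have h4 : |x i| ≤ ‖x‖ := by
        have := EuclideanSpace.norm_eq x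
        rw [this, ← Real.sqrt_sq_eq_abs]
        apply Real.sqrt_le_sqrt
        have h5 := Finset.single_le_sum (f := fun j => ‖x j‖ ^ 2) (fun j _ => sq_nonneg _)
          (Finset.mem_univ i)
        simpa [Real.norm_eq_abs, sq_abs] using h5
      rw [abs_mul, abs_of_pos hc]
      calc (2 * R)⁻¹ * |x i| < (2 * R)⁻¹ * R := by
            apply mul_lt_mul_of_pos_left _ hc
            linarith
        _ = 1 / 2 := by field_simp
    have e0 : (sim hc v x) 0 = (2 * R)⁻¹ * x 0 + 1 / 2 := by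
      rw [sim_apply]
      simp [hv]
    have ei : ∀ i : Fin d, (sim hc v x) i.succ = (2 * R)⁻¹ * x i.succ := by
      intro i
      rw [sim_apply]
      simp [hv]
    have h0 := abs_lt.1 (h3 0)
    refine ⟨?_, ?_, ?_⟩
    · rw [e0]
      linarith
    · rw [e0]
      linarith
    · intro i
      rw [ei]
      exact (h3 _).trans (by norm_num)
  have h2 : 0 < lam r (sim hc v '' Ω) :=
    ((unit_pos hr).trans_le (box_lower hr one_pos)).trans_le
      (lam_mono h1 ((sim hc v).isOpenMap _ hΩ) (hne.image _))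
  have h3 : 0 < (2 * R)⁻¹ ^ r := Real.rpow_pos_of_pos hc r
  positivity

theorem bdd_strict {p q : ℝ} (hd : 1 ≤ d) (hq : 1 < q) (hqp : q < p)
    {Ω : Set (EuclideanSpace ℝ (Fin (d + 1)))} (hΩ : IsOpen Ω) (hcv : Convex ℝ Ω)
    (hne : Ω.Nonempty) {R : ℝ} (hb : Ω ⊆ ball 0 R) :
    lam p Ω ^ (1 / p) * Jr q < Jr p * lam q Ω ^ (1 / q) := by
  have h1 : 0 < lam q Ω := lam_pos hq hΩ hne hb
  have h2 : 0 < lam q Ω ^ (1 / q) := Real.rpow_pos_of_pos h1 _
  have h3 := ratio_lt hq hqp (by omega : 2 ≤ d + 1) hΩ hcv (hΩ.measure_pos volume hne)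
    ((measure_mono hb).trans_lt measure_ball_lt_top)
  rwa [div_lt_div_iff₀ h2 (Jr_pos' hq)] at h3

theorem gen_le {p q : ℝ} (hd : 1 ≤ d) (hq : 1 < q) (hqp : q < p)
    {Ω : Set (EuclideanSpace ℝ (Fin (d + 1)))} (hΩ : IsOpen Ω) (hcv : Convex ℝ Ω)
    (hne : Ω.Nonempty) : lam p Ω ^ (1 / p) * Jr q ≤ Jr p * lam q Ω ^ (1 / q) := by
  have hq0 : 0 < q := by linarith
  have hp0 : 0 < p := by linarith
  have key : ∀ ε : ℝ, 0 < ε → lam p Ω ^ (1 / p) * Jr q ≤ Jr p * (lam q Ω + ε) ^ (1 / q) := by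
    intro ε hε
    obtain ⟨R, hR1, hR2⟩ := exhaust (p := q) hΩ hne hε
    have ho : IsOpen (Ω ∩ ball 0 R) := hΩ.inter isOpen_ball
    have h1 := bdd_strict hd hq hqp ho (hcv.inter (convex_ball 0 R)) hR1 inter_subset_right
    have h2 : lam p Ω ≤ lam p (Ω ∩ ball 0 R) := lam_mono inter_subset_left ho hR1
    have h3 : lam p Ω ^ (1 / p) ≤ lam p (Ω ∩ ball 0 R) ^ (1 / p) :=
      Real.rpow_le_rpow lam_nonneg h2 (by positivity)
    have h4 : lam q (Ω ∩ ball 0 R) ^ (1 / q) ≤ (lam q Ω + ε) ^ (1 / q) :=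
      Real.rpow_le_rpow lam_nonneg hR2 (by positivity)
    calc lam p Ω ^ (1 / p) * Jr q ≤ lam p (Ω ∩ ball 0 R) ^ (1 / p) * Jr q :=
          mul_le_mul_of_nonneg_right h3 (Jr_pos' hq).le
      _ ≤ Jr p * lam q (Ω ∩ ball 0 R) ^ (1 / q) := h1.le
      _ ≤ Jr p * (lam q Ω + ε) ^ (1 / q) :=
          mul_le_mul_of_nonneg_left h4 (Jr_pos' (hq.trans hqp)).le
  have hlim : Tendsto (fun ε : ℝ => Jr p * (lam q Ω + ε) ^ (1 / q)) (𝓝[>] 0)
      (𝓝 (Jr p * (lam q Ω + 0) ^ (1 / q))) := by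
    apply Tendsto.mono_left _ nhdsWithin_le_nhds
    have : ContinuousAt (fun ε : ℝ => Jr p * (lam q Ω + ε) ^ (1 / q)) 0 :=
      continuousAt_const.mul (ContinuousAt.rpow_const (by fun_prop) (Or.inr (by positivity)))
    exact this
  rw [add_zero] at hlim
  refine ge_of_tendsto hlim ?_
  filter_upwards [self_mem_nhdsWithin] with ε hε
  exact key ε hε

theorem slab_open : IsOpen (slab d) := by
  have h0 : Continuous fun x : EuclideanSpace ℝ (Fin (d + 1)) => x 0 := by fun_prop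
  exact (isOpen_lt continuous_const h0).inter (isOpen_lt h0 continuous_const)

theorem slab_convex : Convex ℝ (slab d) := by
  intro x hx y hy a b ha hb hab
  obtain ⟨x1, x2⟩ := hx
  obtain ⟨y1, y2⟩ := hy
  have hb' : b = 1 - a := by linarith
  have ha1 : a ≤ 1 := by linarith
  refine ⟨?_, ?_⟩
  · change 0 < a * x 0 + b * y 0
    rcases ha.eq_or_lt with rfl | ha
    · have : b = 1 := by linarith
      subst this; linarith
    · have := mul_pos ha x1
      have := mul_nonneg hb y1.le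
      linarith
  · change a * x 0 + b * y 0 < 1
    rcases ha.eq_or_lt with rfl | ha
    · have : b = 1 := by linarith
      subst this; linarith
    · nlinarith

theorem box_sub_slab {L : ℝ} : box d L ⊆ slab d := fun _ hx => ⟨hx.1, hx.2.1⟩

theorem box_nonempty {L : ℝ} (hL : 0 < L) : (box d L).Nonempty :=
  nonempty_of_measure_ne_zero (box_facts hL).2.2.1.ne'

theorem lam_slab {r : ℝ} (hr : 1 < r) : lam r (slab d) = lam r (Ioo (0 : ℝ) 1) := by
  have hne : (slab d).Nonempty := (box_nonempty one_pos).mono box_sub_slab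
  refine le_antisymm ?_ ?_
  · refine le_of_forall_pos_le_add fun ε hε => ?_
    obtain ⟨L, hL, h1⟩ := box_upper (d := d) hr hε
    exact (lam_mono box_sub_slab box_open (box_nonempty hL)).trans h1
  · refine le_csInf (lamSet_nonempty r slab_open hne) ?_
    rintro _ ⟨u, h1, h2, h3, h4, rfl⟩
    obtain ⟨L, hL⟩ := (h2.isBounded.subset_ball (0 : EuclideanSpace ℝ (Fin (d + 1))))
    obtain ⟨x, hx⟩ := Function.ne_iff.1 h4
    have hx' : x ∈ tsupport u := subset_tsupport u hx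
    have hL0 : 0 < L := by
      have := hL hx'
      rw [mem_ball_zero_iff] at this
      exact (norm_nonneg x).trans_lt this
    refine (box_lower hr hL0).trans (csInf_le (lamSet_bdd r _) ⟨u, h1, h2, ?_, h4, rfl⟩)
    intro y hy
    refine ⟨(h3 hy).1, (h3 hy).2, fun i => ?_⟩
    have h5 := hL hy
    rw [mem_ball_zero_iff] at h5
    refine lt_of_le_of_lt ?_ h5
    have := EuclideanSpace.norm_eq y
    rw [this, ← Real.sqrt_sq_eq_abs]
    apply Real.sqrt_le_sqrt
    have h6 := Finset.single_le_sum (f := fun j => ‖y j‖ ^ 2) (fun j _ => sq_nonneg _)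
      (Finset.mem_univ i.succ)
    simpa [Real.norm_eq_abs, sq_abs] using h6

/-- The set `thin A ε`, rescaled. -/
def resc (A : Set (Fin d → ℝ)) (x₀ : Fin d → ℝ) (ε : ℝ) :
    Set (EuclideanSpace ℝ (Fin (d + 1))) :=
  {y | 0 < y 0 ∧ y 0 < 1 ∧ (fun i : Fin d => ε * y i.succ + x₀ i) ∈ A}

theorem resc_open {A : Set (Fin d → ℝ)} (hA : IsOpen A) (x₀ : Fin d → ℝ) (ε : ℝ) :
    IsOpen (resc A x₀ ε) := by
  have h0 : Continuous fun x : EuclideanSpace ℝ (Fin (d + 1)) => x 0 := by fun_prop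
  have h1 : Continuous fun y : EuclideanSpace ℝ (Fin (d + 1)) =>
      (fun i : Fin d => ε * y i.succ + x₀ i) := by
    apply continuous_pi
    intro i
    fun_prop
  exact (isOpen_lt continuous_const h0).inter ((isOpen_lt h0 continuous_const).inter
    (hA.preimage h1))

theorem resc_image (A : Set (Fin d → ℝ)) (x₀ : Fin d → ℝ) {ε : ℝ} (hε : 0 < ε) :
    sim hε (WithLp.toLp 2 (Fin.cons 0 x₀ : Fin (d + 1) → ℝ)) '' resc A x₀ ε = thin A ε := by
  ext z
  constructor
  · rintro ⟨y, ⟨h1, h2, h3⟩, rfl⟩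
    rw [sim_apply]
    have e0 : (ε • y + WithLp.toLp 2 (Fin.cons 0 x₀ : Fin (d + 1) → ℝ)) 0 = ε * y 0 := by
      simp
    have ei : ∀ i : Fin d, (ε • y + WithLp.toLp 2 (Fin.cons 0 x₀ : Fin (d + 1) → ℝ)) i.succ =
        ε * y i.succ + x₀ i := by
      intro i
      simp
    refine ⟨?_, ?_, ?_⟩
    · rw [e0]
      positivity
    · rw [e0]
      nlinarith
    · simp only [ei]
      exact h3
  · rintro ⟨h1, h2, h3⟩
    obtain ⟨y, rfl⟩ := (sim hε (WithLp.toLp 2 (Fin.cons 0 x₀ : Fin (d + 1) → ℝ))).surjective z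
    rw [sim_apply] at h1 h2 h3
    have e0 : (ε • y + WithLp.toLp 2 (Fin.cons 0 x₀ : Fin (d + 1) → ℝ)) 0 = ε * y 0 := by
      simp
    have ei : ∀ i : Fin d, (ε • y + WithLp.toLp 2 (Fin.cons 0 x₀ : Fin (d + 1) → ℝ)) i.succ =
        ε * y i.succ + x₀ i := by
      intro i
      simp
    rw [e0] at h1 h2
    simp only [ei] at h3
    refine ⟨y, ⟨?_, ?_, h3⟩, rfl⟩
    · exact (mul_pos_iff_of_pos_left hε).1 h1
    · by_contra hcon
      push Not at hcon
      nlinarith

theorem box_sub_resc {A : Set (Fin d → ℝ)} {x₀ : Fin d → ℝ} {ρ L ε : ℝ} (hρ : ball x₀ ρ ⊆ A)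
    (hρ0 : 0 < ρ) (hε : 0 < ε) (hεL : ε * L ≤ ρ) : box d L ⊆ resc A x₀ ε := by
  rintro y ⟨h1, h2, h3⟩
  refine ⟨h1, h2, hρ ?_⟩
  rw [mem_ball, dist_pi_lt_iff hρ0]
  intro i
  rw [Real.dist_eq, add_sub_cancel_right, abs_mul, abs_of_pos hε]
  exact (mul_lt_mul_of_pos_left (h3 i) hε).trans_le hεL

theorem resc_tendsto {A : Set (Fin d → ℝ)} (hA : IsOpen A) {x₀ : Fin d → ℝ} (hx₀ : x₀ ∈ A)
    {r : ℝ} (hr : 1 < r) :
    Tendsto (fun ε => lam r (resc A x₀ ε)) (𝓝[>] 0) (𝓝 (lam r (Ioo (0 : ℝ) 1))) := by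
  obtain ⟨ρ, hρ0, hρ⟩ := Metric.isOpen_iff.1 hA x₀ hx₀
  rw [Metric.tendsto_nhds]
  intro δ hδ
  obtain ⟨L, hL, h1'⟩ := box_upper (d := d) hr (half_pos hδ)
  have h1 : lam r (box d L) ≤ lam r (Ioo (0 : ℝ) 1) + δ / 2 := h1'
  have h2 : ∀ᶠ ε : ℝ in 𝓝[>] 0, 0 < ε ∧ ε * L ≤ ρ := by
    filter_upwards [Ioc_mem_nhdsGT (div_pos hρ0 hL)] with ε hε
    exact ⟨hε.1, (le_div_iff₀ hL).1 hε.2⟩
  filter_upwards [h2] with ε hε
  have h3 : box d L ⊆ resc A x₀ ε := box_sub_resc hρ hρ0 hε.1 hε.2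
  have hne : (resc A x₀ ε).Nonempty := (box_nonempty hL).mono h3
  have h4 : lam r (resc A x₀ ε) ≤ lam r (box d L) := lam_mono h3 box_open (box_nonempty hL)
  have h5 : lam r (slab d) ≤ lam r (resc A x₀ ε) :=
    lam_mono (fun y hy => ⟨hy.1, hy.2.1⟩) (resc_open hA x₀ ε) hne
  rw [lam_slab hr] at h5
  rw [Real.dist_eq, abs_of_nonneg (by linarith)]
  linarith

end pos

theorem piConst_eq {r : ℝ} (hr : 1 < r) : piConst r = 2 * Jr r := by
  unfold piConst
  rw [principalEigenvalue_eq (by linarith), lam_unit_rpow hr]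

/-- **Parini's conjecture for all open convex sets, and thin slabs.** -/
theorem result (d : ℕ) (hd : 1 ≤ d) :
    -- every nonempty open convex set, of finite or infinite measure
    (∀ Ω : Set (EuclideanSpace ℝ (Fin (d + 1))), IsOpen Ω → Convex ℝ Ω → Ω.Nonempty →
      AntitoneOn (fun r : ℝ => principalEigenvalue r Ω ^ (1 / r) / piConst r) (Ioi 1) ∧
      (volume Ω < ⊤ →
        StrictAntiOn (fun r : ℝ => principalEigenvalue r Ω ^ (1 / r) / piConst r) (Ioi 1))) ∧
    -- the slab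
    (IsOpen (slab d) ∧ Convex ℝ (slab d) ∧ (slab d).Nonempty ∧
      ∀ r : ℝ, 1 < r → principalEigenvalue r (slab d) ^ (1 / r) = piConst r) ∧
    ∀ p q : ℝ, 1 < q → q < p →
      -- Parini's conjecture: sets of finite measure
      (IsLUB {r : ℝ | ∃ Ω : Set (EuclideanSpace ℝ (Fin (d + 1))), Admissible (d + 1) Ω ∧
          r = ratio p q Ω} (piConst p / piConst q) ∧
        ∀ Ω : Set (EuclideanSpace ℝ (Fin (d + 1))), Admissible (d + 1) Ω →
          ratio p q Ω < piConst p / piConst q) ∧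
      -- all open convex sets: the slab attains the maximum
      (IsGreatest {r : ℝ | ∃ Ω : Set (EuclideanSpace ℝ (Fin (d + 1))), IsOpen Ω ∧ Convex ℝ Ω ∧
          Ω.Nonempty ∧ r = ratio p q Ω} (piConst p / piConst q) ∧
        ratio p q (slab d) = piConst p / piConst q) ∧
      -- thin sets over an arbitrary open base are a maximising family
      ∀ A : Set (Fin d → ℝ), IsOpen A → A.Nonempty →
        Tendsto (fun ε : ℝ => ratio p q (thin A ε)) (𝓝[>] 0) (𝓝 (piConst p / piConst q)) := by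
  have hpi : ∀ {r : ℝ}, 1 < r → 0 < piConst r := fun {r} hr => by
    rw [piConst_eq hr]
    have := Jr_pos' hr
    positivity
  have hge : ∀ {p q : ℝ}, 1 < q → q < p → ∀ Ω : Set (EuclideanSpace ℝ (Fin (d + 1))), IsOpen Ω →
      Convex ℝ Ω → Ω.Nonempty → principalEigenvalue p Ω ^ (1 / p) / piConst p ≤
        principalEigenvalue q Ω ^ (1 / q) / piConst q := by
    intro p q hq hqp Ω hΩ hcv hne
    have hp := hq.trans hqp
    have h1 := gen_le hd hq hqp hΩ hcv hne
    have := Jr_pos' hp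
    have := Jr_pos' hq
    rw [div_le_div_iff₀ (hpi hp) (hpi hq), piConst_eq hp, piConst_eq hq,
      principalEigenvalue_eq (by linarith), principalEigenvalue_eq (by linarith)]
    linarith
  have hslab : ∀ r : ℝ, 1 < r → principalEigenvalue r (slab d) ^ (1 / r) = piConst r := by
    intro r hr
    rw [principalEigenvalue_eq (by linarith), lam_slab hr, lam_unit_rpow hr, piConst_eq hr]
  have hsne : (slab d).Nonempty := (box_nonempty one_pos).mono box_sub_slab
  refine ⟨?_, ⟨slab_open, slab_convex, hsne, hslab⟩, ?_⟩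
  · intro Ω hΩ hcv hne
    refine ⟨?_, ?_⟩
    · intro q hq p hp hqp
      rcases hqp.eq_or_lt with rfl | hlt
      · exact le_rfl
      · exact hge hq hlt Ω hΩ hcv hne
    · intro hfin q hq p hp hqp
      have hq : 1 < q := hq
      have hp : 1 < p := hp
      obtain ⟨R, hR⟩ := (Pool.Agent.TH925.J55.bounded_of_convex_finite hΩ hcv hfin).subset_ball
        (0 : EuclideanSpace ℝ (Fin (d + 1)))
      have h1 := bdd_strict hd hq hqp hΩ hcv hne hR
      change principalEigenvalue p Ω ^ (1 / p) / piConst p <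
        principalEigenvalue q Ω ^ (1 / q) / piConst q
      rw [div_lt_div_iff₀ (hpi hp) (hpi hq), piConst_eq hp, piConst_eq hq,
        principalEigenvalue_eq (by linarith), principalEigenvalue_eq (by linarith)]
      linarith
  · intro p q hq hqp
    have hp := hq.trans hqp
    have hs : ratio p q (slab d) = piConst p / piConst q := by
      rw [ratio, hslab p hp, hslab q hq]
    refine ⟨PariniConjecture.result (d + 1) (by omega) p q hq hqp, ⟨⟨?_, ?_⟩, hs⟩, ?_⟩
    · exact ⟨slab d, slab_open, slab_convex, hsne, hs.symm⟩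
    · rintro r ⟨Ω, hΩ, hcv, hne, rfl⟩
      have h1 := hge hq hqp Ω hΩ hcv hne
      have h2 : 0 ≤ principalEigenvalue q Ω ^ (1 / q) := by
        rw [principalEigenvalue_eq (by linarith)]
        exact Real.rpow_nonneg lam_nonneg _
      rw [ratio]
      rcases h2.eq_or_lt with h3 | h3
      · rw [← h3, div_zero]
        exact (div_pos (hpi hp) (hpi hq)).le
      · rw [div_le_div_iff₀ (hpi hp) (hpi hq)] at h1
        rw [div_le_div_iff₀ h3 (hpi hq)]
        linarith
    · intro A hA hAne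
      obtain ⟨x₀, hx₀⟩ := hAne
      obtain ⟨ρ, hρ0, hρ⟩ := Metric.isOpen_iff.1 hA x₀ hx₀
      have hl := fun {r : ℝ} (hr : 1 < r) => resc_tendsto hA hx₀ hr
      have hup := unit_pos hp
      have huq := unit_pos hq
      have h1 : Tendsto (fun ε => lam p (resc A x₀ ε) ^ (1 / p) / lam q (resc A x₀ ε) ^ (1 / q))
          (𝓝[>] 0) (𝓝 (piConst p / piConst q)) := by
        have e1 : piConst p = lam p (Ioo (0 : ℝ) 1) ^ (1 / p) := by
          rw [lam_unit_rpow hp, piConst_eq hp]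
        have e2 : piConst q = lam q (Ioo (0 : ℝ) 1) ^ (1 / q) := by
          rw [lam_unit_rpow hq, piConst_eq hq]
        rw [e1, e2]
        exact ((hl hp).rpow_const (Or.inl hup.ne')).div ((hl hq).rpow_const (Or.inl huq.ne'))
          (Real.rpow_pos_of_pos huq _).ne'
      refine h1.congr' ?_
      have h2 : ∀ᶠ ε : ℝ in 𝓝[>] 0, 0 < ε ∧ ε * 1 ≤ ρ := by
        filter_upwards [Ioc_mem_nhdsGT hρ0] with ε hε
        exact ⟨hε.1, by rw [mul_one]; exact hε.2⟩
      filter_upwards [h2] with ε hε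
      have hne : (resc A x₀ ε).Nonempty :=
        (box_nonempty one_pos).mono (box_sub_resc hρ hρ0 hε.1 hε.2)
      have hsc : ∀ {r : ℝ}, 1 < r → lam r (resc A x₀ ε) ^ (1 / r) =
          ε * lam r (thin A ε) ^ (1 / r) := by
        intro r hr
        have hr0 : 0 < r := by linarith
        rw [lam_scale hε.1 (WithLp.toLp 2 (Fin.cons 0 x₀ : Fin (d + 1) → ℝ))
          (resc_open hA x₀ ε) hne, resc_image,
          Real.mul_rpow (Real.rpow_nonneg hε.1.le _) lam_nonneg, ← Real.rpow_mul hε.1.le,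
          mul_one_div_cancel hr0.ne', Real.rpow_one]
      rw [hsc hp, hsc hq, mul_div_mul_left _ _ hε.1.ne', ratio,
        principalEigenvalue_eq (by linarith), principalEigenvalue_eq (by linarith)]

end Pool.Agent.Results.MP_a627f3_an.AllConvexSets
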